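import Mathlib

/-!
MP_48c3bc_co, Q1: a connected graph with maximum degree three on 24 vertices with zero forcing
number at least 11 and independence number 9.
-/

namespace Pool.Agent.Results.MP_48c3bc_co.SubcubicCounterexample

open Finset

section Defs

variable {V : Type}

/-- The closure of `S` under the colour-change rule: a vertex `v` in the closure all of whose
neighbours except `w` are in the closure adds `w`. -/
inductive Forced (G : SimpleGraph V) (S : Finset V) : V → Prop
  | base (v : V) : v ∈ S → Forced G S v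
  | step (v w : V) : Forced G S v → G.Adj v w →
      (∀ u, G.Adj v u → u ≠ w → Forced G S u) → Forced G S w

/-- `S` is a zero forcing set. -/
def IsZeroForcing (G : SimpleGraph V) (S : Finset V) : Prop := ∀ v, Forced G S v

/-- The zero forcing number. -/
noncomputable def zeroForcingNumber (G : SimpleGraph V) : ℕ :=
  sInf {k | ∃ S : Finset V, IsZeroForcing G S ∧ S.card = k}

/-- A fort disjoint from `S` shows that `S` is not a zero forcing set. -/
lemma fort_hit (G : SimpleGraph V) (S F : Finset V) (hne : ∃ x, x ∈ F)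
    (hF : ∀ v, v ∉ F → ∀ w ∈ F, G.Adj v w → ∃ w' ∈ F, w' ≠ w ∧ G.Adj v w')
    (hS : IsZeroForcing G S) : ∃ x ∈ F, x ∈ S := by
  by_contra hcon
  push Not at hcon
  have key : ∀ v, Forced G S v → v ∉ F := by
    intro v hv
    induction hv with
    | base v hv => exact fun h => hcon v h hv
    | step v w _ hadj _ ihv ihu =>
      intro hw
      obtain ⟨w', hw', hne', hadj'⟩ := hF v ihv w hw hadj
      exact ihu w' hadj' hne' hw'
  obtain ⟨x, hx⟩ := hne
  exact key x (hS x) hx

end Defs

/-- Vertices: three branches with eight vertices each. -/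
abbrev W : Type := Fin 3 × Fin 8

/-- Adjacency inside a branch. -/
def brB (a b : Fin 8) : Bool :=
  (a = 0 && b = 1) || (a = 1 && b = 0) || (a = 1 && b = 2) || (a = 2 && b = 1) ||
  (a = 2 && b = 3) || (a = 3 && b = 2) || (a = 2 && b = 4) || (a = 4 && b = 2) ||
  (a = 3 && b = 4) || (a = 4 && b = 3) || (a = 1 && b = 5) || (a = 5 && b = 1) ||
  (a = 5 && b = 6) || (a = 6 && b = 5) || (a = 5 && b = 7) || (a = 7 && b = 5) ||
  (a = 6 && b = 7) || (a = 7 && b = 6)

def adjB (x y : W) : Bool :=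
  (x.1 = y.1 && brB x.2 y.2) || (x.1 ≠ y.1 && x.2 = 0 && y.2 = 0)

/-- The graph. -/
def G : SimpleGraph W where
  Adj x y := adjB x y = true
  symm := ⟨by decide +kernel⟩
  loopless := ⟨by decide +kernel⟩

instance : DecidableRel G.Adj := fun x y => inferInstanceAs (Decidable (adjB x y = true))

def isFort (F : Finset W) : Prop :=
  ∀ v, v ∉ F → ∀ w ∈ F, adjB v w = true → ∃ w' ∈ F, w' ≠ w ∧ adjB v w' = true

instance (F : Finset W) : Decidable (isFort F) := by unfold isFort; infer_instance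

lemma hit (S F : Finset W) (hne : ∃ x, x ∈ F) (hF : isFort F) (hS : IsZeroForcing G S) :
    ∃ x ∈ F, x ∈ S := fort_hit G S F hne hF hS

/-- The leaf pairs. -/
lemma fort1 : ∀ i : Fin 3, isFort {(i, 3), (i, 4)} ∧ isFort {(i, 6), (i, 7)} := by
  decide +kernel

lemma fort2 : ∀ i : Fin 3, ∀ a ∈ [(3 : Fin 8), 4], ∀ b ∈ [(6 : Fin 8), 7],
    isFort {(i, 2), (i, a), (i, 5), (i, b)} := by
  decide +kernel

/-- The four possible pairs (root, leaf). -/
def prs : List (Fin 8 × Fin 8) := [(2, 3), (2, 4), (5, 6), (5, 7)]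

lemma fort3 : ∀ i j : Fin 3, i ≠ j → ∀ a ∈ prs, ∀ b ∈ prs,
    isFort {(i, 0), (j, 0), (i, a.1), (i, a.2), (j, b.1), (j, b.2)} := by
  decide +kernel

/-- Hypothesis of the branch analysis. -/
def brHyp (s : Finset (Fin 8)) : Bool :=
  (decide (3 ∈ s) || (decide (4 ∈ s))) &&
  ((decide (6 ∈ s) || (decide (7 ∈ s))) &&
  ((decide (2 ∈ s) || (decide (3 ∈ s) || (decide (5 ∈ s) || (decide (6 ∈ s))))) &&
  ((decide (2 ∈ s) || (decide (3 ∈ s) || (decide (5 ∈ s) || (decide (7 ∈ s))))) &&
  ((decide (2 ∈ s) || (decide (4 ∈ s) || (decide (5 ∈ s) || (decide (6 ∈ s))))) &&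
  ((decide (2 ∈ s) || (decide (4 ∈ s) || (decide (5 ∈ s) || (decide (7 ∈ s))))))))))

/-- Conclusion of the branch analysis. -/
def brCon (s : Finset (Fin 8)) : Bool :=
  decide (4 ≤ s.card) || (decide (3 ≤ s.card) && decide (0 ∉ s) &&
    ((decide (2 ∉ s) && (decide (3 ∉ s) || decide (4 ∉ s))) ||
      (decide (5 ∉ s) && (decide (6 ∉ s) || decide (7 ∉ s)))))

lemma branch0 : ∀ s : Finset (Fin 8), brHyp s = true → brCon s = true := by
  decide +kernel

lemma branch (s : Finset (Fin 8)) (h1 : 3 ∈ s ∨ 4 ∈ s) (h2 : 6 ∈ s ∨ 7 ∈ s)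
    (h3 : ∀ a ∈ [(3 : Fin 8), 4], ∀ b ∈ [(6 : Fin 8), 7], 2 ∈ s ∨ a ∈ s ∨ 5 ∈ s ∨ b ∈ s) :
    4 ≤ s.card ∨ (3 ≤ s.card ∧ 0 ∉ s ∧ ∃ a ∈ prs, a.1 ∉ s ∧ a.2 ∉ s) := by
  have h36 := h3 3 (by simp) 6 (by simp)
  have h37 := h3 3 (by simp) 7 (by simp)
  have h46 := h3 4 (by simp) 6 (by simp)
  have h47 := h3 4 (by simp) 7 (by simp)
  have hh : brHyp s = true := by
    unfold brHyp
    simp only [Bool.and_eq_true, Bool.or_eq_true, decide_eq_true_eq]
    exact ⟨h1, h2, h36, h37, h46, h47⟩
  have hc := branch0 s hh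
  unfold brCon at hc
  simp only [Bool.and_eq_true, Bool.or_eq_true, decide_eq_true_eq] at hc
  rcases hc with h | ⟨⟨h4, h5⟩, h6⟩
  · exact Or.inl h
  · refine Or.inr ⟨h4, h5, ?_⟩
    rcases h6 with ⟨ha, hb | hb⟩ | ⟨ha, hb | hb⟩
    · exact ⟨(2, 3), by simp [prs], ha, hb⟩
    · exact ⟨(2, 4), by simp [prs], ha, hb⟩
    · exact ⟨(5, 6), by simp [prs], ha, hb⟩
    · exact ⟨(5, 7), by simp [prs], ha, hb⟩

/-- Part of `S` in a branch. -/
def part (S : Finset W) (i : Fin 3) : Finset (Fin 8) := Finset.univ.filter (fun k => (i, k) ∈ S)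

lemma mem_part (S : Finset W) (i : Fin 3) (k : Fin 8) : k ∈ part S i ↔ (i, k) ∈ S := by
  unfold part; simp

lemma card_parts (S : Finset W) : S.card = ∑ i, (part S i).card := by
  have h := Finset.card_eq_sum_card_fiberwise (s := S) (t := Finset.univ) (f := Prod.fst)
    (fun x _ => Finset.mem_univ x.1)
  rw [h]
  apply Finset.sum_congr rfl
  intro i _
  have : S.filter (fun x => x.1 = i) = (part S i).map ⟨fun k => (i, k), fun a b h => by
      simpa using h⟩ := by
    ext ⟨a, b⟩
    rw [Finset.mem_filter, Finset.mem_map]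
    constructor
    · rintro ⟨h1, h2⟩
      have h2' : a = i := h2
      subst h2'
      exact ⟨b, (mem_part S a b).mpr h1, rfl⟩
    · rintro ⟨k, h1, h2⟩
      have h3 : (i, k) = (a, b) := h2
      rw [← h3]
      exact ⟨(mem_part S i k).mp h1, rfl⟩
  rw [this, Finset.card_map]

lemma zf_ge (S : Finset W) (hS : IsZeroForcing G S) : 11 ≤ S.card := by
  have hbr : ∀ i, 4 ≤ (part S i).card ∨
      (3 ≤ (part S i).card ∧ 0 ∉ part S i ∧ ∃ a ∈ prs, a.1 ∉ part S i ∧ a.2 ∉ part S i) := by
    intro i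
    apply branch
    · obtain ⟨x, hx, hxS⟩ := hit S _ ⟨(i, 3), by simp⟩ (fort1 i).1 hS
      rw [Finset.mem_insert, Finset.mem_singleton] at hx
      rcases hx with rfl | rfl
      · exact Or.inl ((mem_part S i 3).mpr hxS)
      · exact Or.inr ((mem_part S i 4).mpr hxS)
    · obtain ⟨x, hx, hxS⟩ := hit S _ ⟨(i, 6), by simp⟩ (fort1 i).2 hS
      rw [Finset.mem_insert, Finset.mem_singleton] at hx
      rcases hx with rfl | rfl
      · exact Or.inl ((mem_part S i 6).mpr hxS)
      · exact Or.inr ((mem_part S i 7).mpr hxS)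
    · intro a ha b hb
      obtain ⟨x, hx, hxS⟩ := hit S _ ⟨(i, 2), by simp⟩ (fort2 i a ha b hb) hS
      simp only [Finset.mem_insert, Finset.mem_singleton] at hx
      rcases hx with rfl | rfl | rfl | rfl
      · exact Or.inl ((mem_part S i 2).mpr hxS)
      · exact Or.inr (Or.inl ((mem_part S i _).mpr hxS))
      · exact Or.inr (Or.inr (Or.inl ((mem_part S i 5).mpr hxS)))
      · exact Or.inr (Or.inr (Or.inr ((mem_part S i _).mpr hxS)))
  have htwo : ∀ i j : Fin 3, i ≠ j → 4 ≤ (part S i).card ∨ 4 ≤ (part S j).card := by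
    intro i j hij
    rcases hbr i with h1 | ⟨_, h10, a, ha, ha1, ha2⟩
    · exact Or.inl h1
    rcases hbr j with h2 | ⟨_, h20, b, hb, hb1, hb2⟩
    · exact Or.inr h2
    exfalso
    obtain ⟨x, hx, hxS⟩ := hit S _ ⟨(i, 0), by simp⟩ (fort3 i j hij a ha b hb) hS
    simp only [Finset.mem_insert, Finset.mem_singleton] at hx
    rcases hx with rfl | rfl | rfl | rfl | rfl | rfl
    · exact h10 ((mem_part S i 0).mpr hxS)
    · exact h20 ((mem_part S j 0).mpr hxS)
    · exact ha1 ((mem_part S i _).mpr hxS)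
    · exact ha2 ((mem_part S i _).mpr hxS)
    · exact hb1 ((mem_part S j _).mpr hxS)
    · exact hb2 ((mem_part S j _).mpr hxS)
  have h3 : ∀ i, 3 ≤ (part S i).card := by
    intro i
    rcases hbr i with h1 | ⟨h1, _⟩ <;> omega
  rw [card_parts, Fin.sum_univ_three]
  have h01 := htwo 0 1 (by decide)
  have h02 := htwo 0 2 (by decide)
  have h12 := htwo 1 2 (by decide)
  have := h3 0
  have := h3 1
  have := h3 2
  omega

lemma univ_zf : IsZeroForcing G Finset.univ := fun v => Forced.base v (Finset.mem_univ v)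

lemma zfn_ge : 11 ≤ zeroForcingNumber G := by
  unfold zeroForcingNumber
  apply le_csInf
  · exact ⟨_, Finset.univ, univ_zf, rfl⟩
  · rintro k ⟨S, hS, rfl⟩
    exact zf_ge S hS

lemma indep_branch : ∀ s : Finset (Fin 8), (∀ a ∈ s, ∀ b ∈ s, a ≠ b → brB a b = false) →
    s.card ≤ 3 := by
  decide +kernel

lemma indep_le (S : Finset W) (hS : G.IsIndepSet S) : S.card ≤ 9 := by
  have h : ∀ i, (part S i).card ≤ 3 := by
    intro i
    apply indep_branch
    intro a ha b hb hab
    rw [mem_part] at ha hb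
    have h1 := hS ha hb (fun h => hab (Prod.ext_iff.mp h).2)
    rw [← Bool.not_eq_true]
    intro h2
    apply h1
    show adjB (i, a) (i, b) = true
    unfold adjB
    simp [h2]
  rw [card_parts, Fin.sum_univ_three]
  have := h 0
  have := h 1
  have := h 2
  omega

lemma indepNum_le : G.indepNum ≤ 9 := by
  obtain ⟨S, hS⟩ := G.exists_isNIndepSet_indepNum
  rw [← hS.card_eq]
  exact indep_le S hS.isIndepSet

lemma degree_le (v : W) : (G.neighborSet v).ncard ≤ 3 := by
  have h : G.neighborSet v = ((Finset.univ.filter (fun w => adjB v w = true) : Finset W) : Set W) := by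
    ext w
    rw [SimpleGraph.mem_neighborSet, Finset.mem_coe, Finset.mem_filter]
    exact ⟨fun h => ⟨Finset.mem_univ _, h⟩, fun h => h.2⟩
  rw [h, Set.ncard_coe_finset]
  clear h
  revert v
  decide +kernel

lemma connected : G.Connected := by
  have : Nonempty W := ⟨(0, 0)⟩
  rw [SimpleGraph.connected_iff]
  refine ⟨?_, inferInstance⟩
  have e : ∀ x y : W, adjB x y = true → G.Reachable x y := fun x y h =>
    SimpleGraph.Adj.reachable (show G.Adj x y from h)
  have h1 : ∀ i : Fin 3, G.Reachable (i, 1) (i, 0) := fun i => e _ _ (by revert i; decide)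
  have h2 : ∀ i : Fin 3, G.Reachable (i, 2) (i, 0) := fun i =>
    (e (i, 2) (i, 1) (by revert i; decide)).trans (h1 i)
  have h5 : ∀ i : Fin 3, G.Reachable (i, 5) (i, 0) := fun i =>
    (e (i, 5) (i, 1) (by revert i; decide)).trans (h1 i)
  have hall : ∀ i : Fin 3, ∀ k : Fin 8, G.Reachable (i, k) (i, 0) := by
    intro i k
    fin_cases k
    · exact SimpleGraph.Reachable.refl _
    · exact h1 i
    · exact h2 i
    · exact (e (i, 3) (i, 2) (by revert i; decide)).trans (h2 i)
    · exact (e (i, 4) (i, 2) (by revert i; decide)).trans (h2 i)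
    · exact h5 i
    · exact (e (i, 6) (i, 5) (by revert i; decide)).trans (h5 i)
    · exact (e (i, 7) (i, 5) (by revert i; decide)).trans (h5 i)
  rintro ⟨i, k⟩ ⟨j, l⟩
  have h0 : G.Reachable (i, 0) (j, 0) := by
    by_cases hij : i = j
    · rw [hij]
    · exact e _ _ (by unfold adjB; simp [hij])
  exact (hall i k).trans (h0.trans (hall j l).symm)

/-- The inequality `Z(G) ≤ α(G) + 1` fails for a connected graph with maximum degree three
which is not `K_4`. -/
theorem result : ∃ (V : Type) (_ : Fintype V) (G : SimpleGraph V),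
    G.Connected ∧ (∀ v, (G.neighborSet v).ncard ≤ 3) ∧
      IsEmpty (G ≃g (⊤ : SimpleGraph (Fin 4))) ∧
      G.indepNum + 2 ≤ zeroForcingNumber G := by
  refine ⟨W, inferInstance, G, connected, degree_le, ⟨fun φ => ?_⟩, ?_⟩
  · have := Fintype.card_congr φ.toEquiv
    revert this
    decide
  · have h1 := indepNum_le
    have h2 := zfn_ge
    omega

end Pool.Agent.Results.MP_48c3bc_co.SubcubicCounterexample
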